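import Mathlib
import Pool.Agent.N290.RN.Stm
import Pool.Agent.N164.RM.KS

/-!
# Project RN (helper290), part KSP: pointwise form of KS

The proof is that of `KS_of` (helper164), with the integral in place of the bound of the tails
(this part by helper919).
-/

set_option autoImplicit false

open Complex MeasureTheory Set Filter Topology
open scoped ENNReal

namespace Pool.Agent.N919.RN

open Pool.Agent.N290.RJ Pool.Agent.N290.RL Pool.Agent.N290.RM Pool.Agent.N861.RJ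
open Pool.Agent.N290.RN Pool.Agent.N164.RM

variable {d : ℕ}

/-- **KSP**: pointwise form of KS -/
theorem KSP_of (d : ℕ) (h3 : C3 d) (h4 : C4 d) (h4b : C4b d) (h6 : C6 d) : KSP d := by
  have hVo : IsOpen {ξ : E d | 0 < N ξ ∧ N ξ < 1 / 4} :=
    (isOpen_lt continuous_const N_continuous).inter (isOpen_lt N_continuous continuous_const)
  set V : ℝ≥0∞ := volume {ξ : E d | 0 < N ξ ∧ N ξ < 1 / 4} with hV
  have hV0 : 0 < V := by
    refine hVo.measure_pos volume ⟨((1 / 4 : ℂ), 0), ?_⟩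
    have : N (((1 / 4 : ℂ), 0) : E d) = 1 / 16 := by
      unfold N
      simp
      norm_num
    rw [mem_ofPred_eq, this]
    norm_num
  have hv0 : 0 < (min V 1).toReal := ENNReal.toReal_pos (by positivity)
    (ne_top_of_le_ne_top ENNReal.one_ne_top (min_le_right _ _))
  have hvV : ENNReal.ofReal (min V 1).toReal ≤ V := by
    rw [ENNReal.ofReal_toReal (ne_top_of_le_ne_top ENNReal.one_ne_top (min_le_right _ _))]
    exact min_le_left _ _
  set v : ℝ := (min V 1).toReal with hv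
  refine ⟨4 * 2 ^ (d + 2) / v, by positivity, ?_⟩
  intro a ha z hz
  obtain ⟨U, hU, -, hUz⟩ := h4b z
  obtain ⟨-, -, h4c⟩ := h4 U hU
  set x : ℝ := nm z with hxdef
  have hx : 0 ≤ x := nm_nonneg z
  have hx1 : x < 1 := mem_B_nm.1 hz
  have hNz : N z = x ^ 2 := (nm_sq z).symm
  have hNz1 : N z < 1 := hz
  set κ : ℝ := 4 * (1 - N z) with hκ
  have hκ0 : 0 < κ := by rw [hκ]; linarith
  obtain ⟨-, h3c, -⟩ := h3 x hx hx1
  -- the compact set
  set S : Set (E d) := Ph x '' {ξ : E d | N ξ ≤ 1 / 4} with hS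
  have hSm : MeasurableSet S := by
    refine (K_compact.image_of_continuousOn ?_).measurableSet
    intro ξ hξ
    have hB : ξ ∈ B d := mem_B.2 (lt_of_le_of_lt hξ (by norm_num))
    exact (h6 x hx hx1 ξ hB).1.continuousAt.continuousWithinAt
  set G : E d → ℝ≥0∞ := S.indicator
    (fun w => ENNReal.ofReal (a z ^ 2 / 4 * N290.RJ.ker ((x : ℂ), 0) w)) with hG
  have hGm : Measurable G :=
    (ENNReal.measurable_ofReal.comp ((ker_meas _).const_mul _)).indicator hSm
  have hap := (ha.a2 z hz).1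
  -- the minorant
  have hmin : ∫⁻ w in B d, G w ≤ ∫⁻ w in B d,
      ENNReal.ofReal ((if 1 - N w ≤ κ then a w ^ 2 else 0) * N290.RJ.ker z w) := by
    rw [h4c (fun w => ENNReal.ofReal ((if 1 - N w ≤ κ then a w ^ 2 else 0) * N290.RJ.ker z w))]
    refine lintegral_mono fun w => ?_
    rw [hG]
    by_cases hw : w ∈ S
    · rw [indicator_of_mem hw]
      obtain ⟨ξ, hξ, rfl⟩ := hw
      have hξ' : N ξ ≤ 1 / 4 := hξ
      have hB : ξ ∈ B d := mem_B.2 (by linarith)
      obtain ⟨-, -, e1, -⟩ := h6 x hx hx1 ξ hB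
      have hk : N290.RJ.ker z (U (Ph x ξ)) = N290.RJ.ker ((x : ℂ), 0) (Ph x ξ) := by
        conv_lhs => rw [← hUz]
        rw [hU.ker]
      have hle : 1 - N (U (Ph x ξ)) ≤ κ := by
        rw [hU, e1, hκ, hNz]
        have k1 := u_ge hx ξ
        have k2 := fst_le_nm ξ
        have k3 : nm ξ ≤ 1 / 2 := by
          have := nm_sq ξ
          have := nm_nonneg ξ
          nlinarith
        have k4 := norm_nonneg ξ.1
        have k5 : 1 / 2 ≤ ‖1 - (x : ℂ) * ξ.1‖ := by nlinarith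
        have k6 : 0 < 1 - x ^ 2 := by nlinarith
        have k7 := N_nonneg ξ
        have k8 : 0 < ‖1 - (x : ℂ) * ξ.1‖ := by linarith
        rw [div_le_iff₀ (by positivity)]
        have k9 : 1 / 4 ≤ ‖1 - (x : ℂ) * ξ.1‖ ^ 2 := by nlinarith
        nlinarith
      have hal := a_low h6 ha hx hx1 hU hξ'
      rw [hUz] at hal
      rw [if_pos hle, hk]
      apply ENNReal.ofReal_le_ofReal
      have hk0 := ker_nonneg ((x : ℂ), (0 : Fin d → ℂ)) (Ph x ξ)
      have h5 : a z ^ 2 / 4 ≤ a (U (Ph x ξ)) ^ 2 := by nlinarith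
      exact mul_le_mul_of_nonneg_right h5 hk0
    · rw [indicator_of_notMem hw]
      exact zero_le
  rw [h3c G hGm] at hmin
  -- the lower bound
  have hlow : ENNReal.ofReal (a z ^ 2 / 4 / 2 ^ (d + 2)) * V ≤
      ∫⁻ ξ in B d, ENNReal.ofReal (((1 - x ^ 2) / ‖1 - x * ξ.1‖ ^ 2) ^ (d + 2)) * G (Ph x ξ) := by
    rw [hV, ← setLIntegral_const]
    have hsub : {ξ : E d | 0 < N ξ ∧ N ξ < 1 / 4} ⊆ B d := fun ξ hξ =>
      mem_B.2 (hξ.2.trans (by norm_num))
    refine le_trans ?_ (lintegral_mono_set hsub)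
    refine setLIntegral_mono' hVo.measurableSet fun ξ hξ => ?_
    have hmem : Ph x ξ ∈ S := ⟨ξ, hξ.2.le, rfl⟩
    rw [hG, indicator_of_mem hmem, ← ENNReal.ofReal_mul']
    · apply ENNReal.ofReal_le_ofReal
      exact ptw h6 hx hx1 hξ.2 hξ.1 (a z ^ 2 / 4) (by positivity)
    · have hk0 := ker_nonneg ((x : ℂ), (0 : Fin d → ℂ)) (Ph x ξ)
      positivity
  have h5 : ENNReal.ofReal (a z ^ 2 / 4 / 2 ^ (d + 2) * v) ≤ ∫⁻ w in B d,
      ENNReal.ofReal ((if 1 - N w ≤ κ then a w ^ 2 else 0) * N290.RJ.ker z w) := by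
    rw [ENNReal.ofReal_mul (by positivity)]
    calc _ ≤ ENNReal.ofReal (a z ^ 2 / 4 / 2 ^ (d + 2)) * V := by gcongr
      _ ≤ _ := hlow
      _ ≤ _ := hmin
  have h7 : a z ^ 2 = 4 * 2 ^ (d + 2) / v * (a z ^ 2 / 4 / 2 ^ (d + 2) * v) := by
    field_simp
  calc ENNReal.ofReal (a z ^ 2)
      = ENNReal.ofReal (4 * 2 ^ (d + 2) / v * (a z ^ 2 / 4 / 2 ^ (d + 2) * v)) := by rw [← h7]
    _ = ENNReal.ofReal (4 * 2 ^ (d + 2) / v) *
        ENNReal.ofReal (a z ^ 2 / 4 / 2 ^ (d + 2) * v) := ENNReal.ofReal_mul (by positivity)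
    _ ≤ _ := by gcongr

end Pool.Agent.N919.RN
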